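import Mathlib

open Set Topology Filter TopologicalSpace

namespace Pool.Agent.Results.MP_fe892a_gt.NotIdempotent

/-- A subcontinuum of `S`: a compact connected (in particular nonempty) subset. -/
def IsSubcontinuum {S : Type} [TopologicalSpace S] (W : Set S) : Prop :=
  IsCompact W ∧ IsConnected W

/-- A metric continuum: a compact metrizable connected (in particular nonempty) space. -/
def IsMetricContinuum (X : Type) [TopologicalSpace X] : Prop :=
  CompactSpace X ∧ MetrizableSpace X ∧ ConnectedSpace X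

/-- `X` is indecomposable: it is not the union of two proper subcontinua. -/
def IsIndecomposable (X : Type) [TopologicalSpace X] : Prop :=
  ¬ ∃ P Q : Set X, IsSubcontinuum P ∧ IsSubcontinuum Q ∧ P ≠ univ ∧ Q ≠ univ ∧ P ∪ Q = univ

/-- F. B. Jones's set function `T`: `p` is outside `T A` exactly when some subcontinuum `W` has
`p` in its interior and misses `A`. -/
def jonesT {S : Type} [TopologicalSpace S] (A : Set S) : Set S :=
  {p | ¬ ∃ W : Set S, IsSubcontinuum W ∧ p ∈ interior W ∧ W ∩ A = ∅}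

/-- The sign attached to a bit. -/
def sg (b : Bool) : ℝ := if b then 1 else -1

lemma sg_ne {a b : Bool} (h : a ≠ b) : sg a = - sg b := by
  cases a <;> cases b <;> simp_all [sg]

lemma sg_ne_zero (b : Bool) : sg b ≠ 0 := by
  cases b <;> simp [sg]

section Construction

variable {G : Type} [MetricSpace G]

/-- The coordinate functions of the embedding, defined by recursion. -/
noncomputable def rr (u : ℕ → G × (ℕ → Bool)) : ℕ → G × (ℕ → Bool) → ℝ
  | n, p => sg (p.2 n) *
      (dist p.1 (u n).1 + ∑ i : Fin n, |rr u i.1 p - rr u i.1 (u n)|)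
termination_by n => n
decreasing_by all_goals exact i.2

/-- The unsigned coordinate. -/
noncomputable def dd (u : ℕ → G × (ℕ → Bool)) (n : ℕ) (p : G × (ℕ → Bool)) : ℝ :=
  dist p.1 (u n).1 + ∑ i : Fin n, |rr u i.1 p - rr u i.1 (u n)|

lemma rr_eq (u : ℕ → G × (ℕ → Bool)) (n : ℕ) (p : G × (ℕ → Bool)) :
    rr u n p = sg (p.2 n) * dd u n p := by
  rw [rr, dd]

lemma continuous_rr (u : ℕ → G × (ℕ → Bool)) (n : ℕ) : Continuous (rr u n) := by
  induction n using Nat.strong_induction_on with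
  | _ n ih =>
    have h : rr u n = fun p => sg (p.2 n) *
        (dist p.1 (u n).1 + ∑ i : Fin n, |rr u i.1 p - rr u i.1 (u n)|) := by
      funext p; rw [rr_eq, dd]
    rw [h]
    have h1 : Continuous (fun p : G × (ℕ → Bool) => sg (p.2 n)) := by
      have : Continuous sg := continuous_of_discreteTopology
      exact this.comp ((continuous_apply n).comp continuous_snd)
    have h2 : Continuous (fun p : G × (ℕ → Bool) => dist p.1 (u n).1) :=
      continuous_fst.dist continuous_const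
    refine h1.mul (h2.add ?_)
    refine continuous_finsetSum _ (fun i _ => ?_)
    exact ((ih i.1 i.2).sub continuous_const).abs

lemma dd_congr (u : ℕ → G × (ℕ → Bool)) {n : ℕ} {p q : G × (ℕ → Bool)} (h1 : p.1 = q.1)
    (h : ∀ i < n, rr u i p = rr u i q) : dd u n p = dd u n q := by
  unfold dd
  rw [h1]
  congr 1
  refine Finset.sum_congr rfl (fun i _ => ?_)
  rw [h i.1 i.2]

lemma rr_congr (u : ℕ → G × (ℕ → Bool)) {p q : G × (ℕ → Bool)} (h1 : p.1 = q.1) (n : ℕ)
    (h : ∀ m ≤ n, p.2 m = q.2 m ∨ dd u m p = 0) : rr u n p = rr u n q := by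
  induction n using Nat.strong_induction_on with
  | _ n ih =>
    have hlt : ∀ i < n, rr u i p = rr u i q := fun i hi =>
      ih i hi (fun m hm => h m (hm.trans hi.le))
    have hd := dd_congr u h1 hlt
    rw [rr_eq, rr_eq, ← hd]
    rcases h n le_rfl with h2 | h2
    · rw [h2]
    · rw [h2]; simp

lemma dd_nonneg (u : ℕ → G × (ℕ → Bool)) (n : ℕ) (p : G × (ℕ → Bool)) : 0 ≤ dd u n p := by
  unfold dd
  positivity

lemma dd_eq_zero (u : ℕ → G × (ℕ → Bool)) {n : ℕ} {p : G × (ℕ → Bool)} :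
    dd u n p = 0 ↔ p.1 = (u n).1 ∧ ∀ i < n, rr u i p = rr u i (u n) := by
  unfold dd
  have hs : 0 ≤ ∑ i : Fin n, |rr u i.1 p - rr u i.1 (u n)| := by positivity
  constructor
  · intro h
    have h1 : dist p.1 (u n).1 = 0 := by
      have := dist_nonneg (x := p.1) (y := (u n).1)
      linarith
    have h2 : ∑ i : Fin n, |rr u i.1 p - rr u i.1 (u n)| = 0 := by linarith
    refine ⟨dist_eq_zero.1 h1, fun i hi => ?_⟩
    rw [Finset.sum_eq_zero_iff_of_nonneg (fun _ _ => abs_nonneg _)] at h2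
    have h3 := h2 ⟨i, hi⟩ (Finset.mem_univ _)
    exact sub_eq_zero.1 (abs_eq_zero.1 h3)
  · rintro ⟨h1, h2⟩
    rw [h1, dist_self, zero_add]
    refine Finset.sum_eq_zero (fun i _ => ?_)
    rw [h2 i.1 i.2, sub_self, abs_zero]

/-- The map whose range is the indecomposable continuum. -/
noncomputable def FF (u : ℕ → G × (ℕ → Bool)) (p : G × (ℕ → Bool)) : G × (ℕ → ℝ) :=
  (p.1, fun n => rr u n p)

lemma continuous_FF (u : ℕ → G × (ℕ → Bool)) : Continuous (FF u) :=
  continuous_fst.prodMk (continuous_pi (fun n => continuous_rr u n))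

lemma FF_eq {u : ℕ → G × (ℕ → Bool)} {p q : G × (ℕ → Bool)} (h1 : p.1 = q.1)
    (h : ∀ m, p.2 m = q.2 m ∨ dd u m p = 0) : FF u p = FF u q := by
  unfold FF
  rw [h1]
  congr 1
  funext n
  exact rr_congr u h1 n (fun m _ => h m)

lemma FF_sep {u : ℕ → G × (ℕ → Bool)} {p q : G × (ℕ → Bool)} (h : FF u p = FF u q) {n : ℕ}
    (hn : p.2 n ≠ q.2 n) : dd u n p = 0 := by
  have h0 : (FF u p).1 = (FF u q).1 := by rw [h]
  have h1 : p.1 = q.1 := h0
  have h2 : ∀ i, rr u i p = rr u i q := fun i => by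
    have : (FF u p).2 i = (FF u q).2 i := by rw [h]
    exact this
  have hd : dd u n p = dd u n q := dd_congr u h1 (fun i _ => h2 i)
  have h3 := h2 n
  rw [rr_eq, rr_eq, ← hd, sg_ne hn] at h3
  have h4 : sg (q.2 n) * dd u n p = 0 := by linarith
  rcases mul_eq_zero.1 h4 with h5 | h5
  · exact absurd h5 (sg_ne_zero _)
  · exact h5

/-- the two points glued at stage `k`. -/
lemma FF_glue (u : ℕ → G × (ℕ → Bool)) (k : ℕ) (c c' : ℕ → Bool)
    (h1 : ∀ i < k, c i = (u k).2 i) (h2 : ∀ i, i ≠ k → c i = c' i) :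
    FF u ((u k).1, c) = FF u ((u k).1, c') := by
  refine FF_eq rfl (fun m => ?_)
  by_cases hm : m = k
  · right
    subst hm
    rw [dd_eq_zero]
    refine ⟨rfl, fun i hi => ?_⟩
    exact rr_congr u (p := ((u m).1, c)) (q := u m) rfl i
      (fun j hj => Or.inl (h1 j (lt_of_le_of_lt hj hi)))
  · left
    exact h2 m hm

lemma FF_move (u : ℕ → G × (ℕ → Bool)) {n : ℕ} {p : G × (ℕ → Bool)} (h : dd u n p = 0) :
    FF u ((u n).1, fun i => if i < n then (u n).2 i else p.2 i) = FF u p := by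
  obtain ⟨h1, h2⟩ := (dd_eq_zero u).1 h
  unfold FF
  simp only
  rw [h1]
  congr 1
  funext i
  induction i using Nat.strong_induction_on with
  | _ i ih =>
    by_cases hi : i < n
    · rw [h2 i hi]
      refine rr_congr u (p := ((u n).1, fun i => if i < n then (u n).2 i else p.2 i))
        (q := u n) rfl i (fun m hm => Or.inl ?_)
      simp [lt_of_le_of_lt hm hi]
    · rw [rr_eq, rr_eq]
      have := dd_congr u (n := i) (p := ((u n).1, fun i => if i < n then (u n).2 i else p.2 i))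
        (q := p) h1.symm ih
      rw [this]
      simp [hi]

/-- The indecomposable continuum. -/
abbrev XX (u : ℕ → G × (ℕ → Bool)) : Type := ↥(Set.range (FF u))

/-- the quotient map. -/
noncomputable def pr (u : ℕ → G × (ℕ → Bool)) (p : G × (ℕ → Bool)) : XX u :=
  ⟨FF u p, mem_range_self p⟩

/-- the projection to `G`. -/
def pf (u : ℕ → G × (ℕ → Bool)) (x : XX u) : G := x.1.1

lemma continuous_pr (u : ℕ → G × (ℕ → Bool)) : Continuous (pr u) :=
  (continuous_FF u).subtype_mk _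

lemma surjective_pr (u : ℕ → G × (ℕ → Bool)) : Function.Surjective (pr u) := by
  rintro ⟨x, p, rfl⟩
  exact ⟨p, rfl⟩

lemma continuous_pf (u : ℕ → G × (ℕ → Bool)) : Continuous (pf u) :=
  continuous_fst.comp continuous_subtype_val

lemma pf_pr (u : ℕ → G × (ℕ → Bool)) (p : G × (ℕ → Bool)) : pf u (pr u p) = p.1 := rfl

lemma pr_eq {u : ℕ → G × (ℕ → Bool)} {p q : G × (ℕ → Bool)} (h : FF u p = FF u q) :
    pr u p = pr u q := Subtype.ext h

lemma surjective_pf (u : ℕ → G × (ℕ → Bool)) : Function.Surjective (pf u) := by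
  intro g
  exact ⟨pr u (g, fun _ => false), rfl⟩

lemma isOpenMap_pf (u : ℕ → G × (ℕ → Bool)) : IsOpenMap (pf u) := by
  intro O hO
  rw [isOpen_iff_mem_nhds]
  rintro _ ⟨x, hx, rfl⟩
  obtain ⟨p, rfl⟩ := surjective_pr u x
  have h1 : IsOpen (pr u ⁻¹' O) := hO.preimage (continuous_pr u)
  have h2 : IsOpen ((fun g : G => (g, p.2)) ⁻¹' (pr u ⁻¹' O)) :=
    h1.preimage (by fun_prop)
  refine mem_of_superset (h2.mem_nhds hx) ?_
  intro g hg
  exact ⟨pr u (g, p.2), hg, rfl⟩

/-- the set of leaves at stage `k`. -/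
def EE (u : ℕ → G × (ℕ → Bool)) {Z : Type} (W : Set (G × Z)) (k : ℕ) (t : ℕ → Bool) :
    Set (XX u × Z) :=
  {q | ∃ w ∈ W, ∃ c : ℕ → Bool, (∀ i, k ≤ i → c i = t i) ∧ q = (pr u (w.1, c), w.2)}

lemma isPreconnected_EE (u : ℕ → G × (ℕ → Bool)) {Z : Type} [TopologicalSpace Z]
    {W : Set (G × Z)} (hW : IsPreconnected W) (hf : Prod.fst '' W = univ) (k : ℕ) :
    ∀ t : ℕ → Bool, IsPreconnected (EE u W k t) := by
  induction k with
  | zero =>
    intro t
    have : EE u W 0 t = (fun w : G × Z => (pr u (w.1, t), w.2)) '' W := by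
      ext q
      constructor
      · rintro ⟨w, hw, c, hc, rfl⟩
        have : c = t := funext (fun i => hc i (Nat.zero_le i))
        subst this
        exact ⟨w, hw, rfl⟩
      · rintro ⟨w, hw, rfl⟩
        exact ⟨w, hw, t, fun _ _ => rfl, rfl⟩
    rw [this]
    refine hW.image _ (Continuous.continuousOn ?_)
    exact ((continuous_pr u).comp (continuous_fst.prodMk continuous_const)).prodMk continuous_snd
  | succ k ih =>
    intro t
    have : EE u W (k + 1) t = EE u W k (Function.update t k false) ∪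
        EE u W k (Function.update t k true) := by
      ext q
      constructor
      · rintro ⟨w, hw, c, hc, rfl⟩
        have key : ∀ i, k ≤ i → c i = Function.update t k (c k) i := by
          intro i hi
          rcases Nat.eq_or_lt_of_le hi with h | h
          · subst h; simp
          · rw [Function.update_of_ne (Nat.ne_of_gt h)]
            exact hc i h
        cases hck : c k
        · left
          rw [hck] at key
          exact ⟨w, hw, c, key, rfl⟩
        · right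
          rw [hck] at key
          exact ⟨w, hw, c, key, rfl⟩
      · rintro (⟨w, hw, c, hc, rfl⟩ | ⟨w, hw, c, hc, rfl⟩)
        all_goals
          refine ⟨w, hw, c, fun i hi => ?_, rfl⟩
          rw [hc i (Nat.le_of_succ_le hi), Function.update_of_ne (by omega)]
    rw [this]
    refine IsPreconnected.union' ?_ (ih _) (ih _)
    have hz : (u k).1 ∈ Prod.fst '' W := by rw [hf]; trivial
    obtain ⟨w, hw, hw1⟩ := hz
    refine ⟨(pr u ((u k).1, fun i => if i < k then (u k).2 i else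
      Function.update t k false i), w.2), ?_, ?_⟩
    · refine ⟨w, hw, fun i => if i < k then (u k).2 i else Function.update t k false i, ?_, ?_⟩
      · intro i hi
        simp [Nat.not_lt.2 hi]
      · rw [hw1]
    · refine ⟨w, hw, fun i => if i < k then (u k).2 i else Function.update t k true i, ?_, ?_⟩
      · intro i hi
        simp [Nat.not_lt.2 hi]
      · rw [hw1]
        congr 1
        apply pr_eq
        apply FF_glue
        · intro i hi
          simp [hi]
        · intro i hi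
          simp [Function.update_of_ne hi]

lemma isConnected_lift (u : ℕ → G × (ℕ → Bool)) {Z : Type} [TopologicalSpace Z]
    {W : Set (G × Z)} (hW : IsConnected W) (hf : Prod.fst '' W = univ) :
    IsConnected {q : XX u × Z | (pf u q.1, q.2) ∈ W} := by
  obtain ⟨w0, hw0⟩ := hW.nonempty
  refine ⟨⟨(pr u (w0.1, fun _ => false), w0.2), hw0⟩, ?_⟩
  have h1 : IsPreconnected (⋃ k, EE u W k (fun _ => false)) := by
    apply isPreconnected_iUnion
    · refine ⟨(pr u (w0.1, fun _ => false), w0.2), mem_iInter.2 (fun k => ?_)⟩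
      exact ⟨w0, hw0, _, fun _ _ => rfl, rfl⟩
    · intro k
      exact isPreconnected_EE u hW.isPreconnected hf k _
  refine h1.subset_closure ?_ ?_
  · rintro q hq
    obtain ⟨k, w, hw, c, hc, rfl⟩ := mem_iUnion.1 hq
    exact hw
  · rintro ⟨x, z⟩ hq
    obtain ⟨⟨g, c⟩, rfl⟩ := surjective_pr u x
    have hgz : (g, z) ∈ W := hq
    have hlim : Tendsto (fun k : ℕ => (pr u (g, fun i => if i < k then c i else false), z))
        atTop (𝓝 (pr u (g, c), z)) := by
      refine Tendsto.prodMk_nhds ?_ tendsto_const_nhds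
      refine ((continuous_pr u).tendsto (g, c)).comp ?_
      refine Tendsto.prodMk_nhds tendsto_const_nhds ?_
      rw [tendsto_pi_nhds]
      intro i
      refine tendsto_const_nhds.congr' ?_
      filter_upwards [eventually_gt_atTop i] with k hk
      simp [hk]
    refine mem_closure_of_tendsto hlim (Eventually.of_forall (fun k => ?_))
    refine mem_iUnion.2 ⟨k, (g, z), hgz, _, ?_, rfl⟩
    intro i hi
    simp [Nat.not_lt.2 hi]

lemma no_interior (u : ℕ → G × (ℕ → Bool)) (hu : ∀ O : Set (G × (ℕ → Bool)), IsOpen O →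
    O.Nonempty → ∀ m, ∃ n ≥ m, u n ∈ O) [CompactSpace G] (W : Set (XX u)) (hWc : IsClosed W)
    (hW : IsPreconnected W) (hi : (interior W).Nonempty) : W = univ := by
  by_contra hne
  have hne' : Wᶜ.Nonempty := by
    rw [nonempty_compl]; exact hne
  have hO1 : IsOpen (pr u ⁻¹' interior W) := isOpen_interior.preimage (continuous_pr u)
  have hO2 : IsOpen (pr u ⁻¹' Wᶜ) := hWc.isOpen_compl.preimage (continuous_pr u)
  obtain ⟨x1, hx1⟩ := hi
  obtain ⟨⟨a, c1⟩, rfl⟩ := surjective_pr u x1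
  obtain ⟨x2, hx2⟩ := hne'
  obtain ⟨⟨b, c2⟩, rfl⟩ := surjective_pr u x2
  -- basic neighbourhoods
  have basic : ∀ (O : Set (G × (ℕ → Bool))), IsOpen O → ∀ g c, (g, c) ∈ O →
      ∃ m : ℕ, ∃ U : Set G, IsOpen U ∧ g ∈ U ∧ ∀ g' ∈ U, ∀ c' : ℕ → Bool,
        (∀ i < m, c' i = c i) → (g', c') ∈ O := by
    intro O hO g c hgc
    obtain ⟨U, V, hU, hV, hgU, hcV, hUV⟩ := isOpen_prod_iff.1 hO g c hgc
    obtain ⟨I, v, hIv, hsub⟩ := isOpen_pi_iff.1 hV c hcV
    refine ⟨I.sup id + 1, U, hU, hgU, fun g' hg' c' hc' => hUV ⟨hg', hsub ?_⟩⟩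
    intro i hi
    have : i < I.sup id + 1 := Nat.lt_succ_of_le (Finset.le_sup (f := id) hi)
    show c' i ∈ v i
    rw [hc' i this]
    exact (hIv i hi).2
  obtain ⟨m1, U1, hU1, haU1, h1⟩ := basic _ hO1 a c1 hx1
  obtain ⟨m2, U2, hU2, hbU2, h2⟩ := basic _ hO2 b c2 hx2
  -- choose n
  obtain ⟨n, hn, hun⟩ := hu (U2 ×ˢ {c : ℕ → Bool | ∀ i < m2, c i = c2 i})
    (by
      refine hU2.prod ?_
      have : {c : ℕ → Bool | ∀ i < m2, c i = c2 i} = ⋂ i ∈ Finset.range m2,
          (fun c : ℕ → Bool => c i) ⁻¹' {c2 i} := by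
        ext c; simp
      rw [this]
      refine isOpen_biInter_finset (fun i _ => ?_)
      exact (isOpen_discrete _).preimage (continuous_apply i))
    ⟨(b, c2), hbU2, fun _ _ => rfl⟩ (max m1 m2)
  have hn1 : m1 ≤ n := le_trans (le_max_left _ _) hn
  have hn2 : m2 ≤ n := le_trans (le_max_right _ _) hn
  -- the closed pieces
  have hcl : ∀ bb : Bool, IsClosed (W ∩ pr u '' {p | p.2 n = bb}) := by
    intro bb
    refine hWc.inter ?_
    have hcl1 : IsClosed {p : G × (ℕ → Bool) | p.2 n = bb} :=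
      isClosed_eq ((continuous_apply n).comp continuous_snd) continuous_const
    exact (hcl1.isCompact.image (continuous_pr u)).isClosed
  have hcov : W ⊆ (W ∩ pr u '' {p | p.2 n = false}) ∪ (W ∩ pr u '' {p | p.2 n = true}) := by
    intro x hx
    obtain ⟨p, rfl⟩ := surjective_pr u x
    cases hp : p.2 n
    · exact Or.inl ⟨hx, p, hp, rfl⟩
    · exact Or.inr ⟨hx, p, hp, rfl⟩
  have hnonempty : ∀ bb : Bool, (W ∩ (W ∩ pr u '' {p | p.2 n = bb})).Nonempty := by
    intro bb
    have hmem : pr u (a, Function.update c1 n bb) ∈ W := by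
      have := h1 a haU1 (Function.update c1 n bb) (fun i hi => by
        rw [Function.update_of_ne (by omega)])
      exact interior_subset this
    exact ⟨pr u (a, Function.update c1 n bb), hmem, hmem, _, by simp, rfl⟩
  obtain ⟨x, hx, hx0, hx1⟩ := (isPreconnected_closed_iff.1 hW) _ _ (hcl false) (hcl true) hcov
    (hnonempty false) (hnonempty true)
  obtain ⟨p, hp, hpx⟩ := hx0.2
  obtain ⟨q, hq, hqx⟩ := hx1.2
  have hFF : FF u p = FF u q := by
    have : pr u p = pr u q := hpx.trans hqx.symm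
    exact congrArg Subtype.val this
  have hpq : p.2 n ≠ q.2 n := by
    have h3 : p.2 n = false := hp
    have h4 : q.2 n = true := hq
    rw [h3, h4]; simp
  have hdd := FF_sep hFF hpq
  have hmove := FF_move u hdd
  have hcontra : ((u n).1, fun i => if i < n then (u n).2 i else p.2 i) ∈ pr u ⁻¹' Wᶜ := by
    refine h2 _ hun.1 _ (fun i hi => ?_)
    have : i < n := lt_of_lt_of_le hi hn2
    simp only [this, if_true]
    exact hun.2 i hi
  apply hcontra
  have : pr u ((u n).1, fun i => if i < n then (u n).2 i else p.2 i) = pr u p := pr_eq hmove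
  rw [this, hpx]
  exact hx

end Construction

lemma exists_dense_tails (E : Type) [TopologicalSpace E] [SeparableSpace E] [Nonempty E] :
    ∃ u : ℕ → E, ∀ O : Set E, IsOpen O → O.Nonempty → ∀ m, ∃ n ≥ m, u n ∈ O := by
  obtain ⟨d, hd⟩ := exists_dense_seq E
  refine ⟨fun n => d (Nat.unpair n).1, fun O hO hne m => ?_⟩
  obtain ⟨k, hk⟩ := hd.exists_mem_open hO hne
  refine ⟨Nat.pair k m, Nat.right_le_pair k m, ?_⟩
  simpa using hk

theorem exists_cover (G : Type) [MetricSpace G] [CompactSpace G] [ConnectedSpace G] :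
    ∃ (X : Type) (_ : TopologicalSpace X) (f : X → G), CompactSpace X ∧ MetrizableSpace X ∧
      ConnectedSpace X ∧ Continuous f ∧ IsOpenMap f ∧ Function.Surjective f ∧
      (∀ W : Set X, IsClosed W → IsPreconnected W → (interior W).Nonempty → W = univ) ∧
      (∀ (Z : Type) [TopologicalSpace Z] (W : Set (G × Z)), IsConnected W →
        Prod.fst '' W = univ → IsConnected {q : X × Z | (f q.1, q.2) ∈ W}) := by
  obtain ⟨u, hu⟩ := exists_dense_tails (G × (ℕ → Bool))
  have hcomp : CompactSpace (XX u) := isCompact_iff_compactSpace.1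
    (isCompact_range (continuous_FF u))
  refine ⟨XX u, inferInstance, pf u, hcomp, inferInstance, ?_, continuous_pf u, isOpenMap_pf u,
    surjective_pf u, fun W h1 h2 h3 => no_interior u hu W h1 h2 h3,
    fun Z _ W h1 h2 => isConnected_lift u h1 h2⟩
  have h := isConnected_lift u (Z := Unit) (W := univ) isConnected_univ (by
    rw [image_univ]; exact Prod.fst_surjective.range_eq)
  have h2 := h.image Prod.fst continuous_fst.continuousOn
  rw [connectedSpace_iff_univ]
  convert h2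
  symm
  rw [eq_univ_iff_forall]
  intro x
  exact ⟨(x, ()), trivial, rfl⟩

/-- The variant of `T` in which only spanning continua are used. -/
def spanT {G H : Type} [TopologicalSpace G] [TopologicalSpace H] (A : Set (G × H)) :
    Set (G × H) :=
  {p | ¬ ∃ W : Set (G × H), IsSubcontinuum W ∧ p ∈ interior W ∧ W ∩ A = ∅ ∧
    Prod.fst '' W = univ ∧ Prod.snd '' W = univ}

lemma subset_spanT {G H : Type} [TopologicalSpace G] [TopologicalSpace H] (A : Set (G × H)) :
    A ⊆ spanT A := by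
  rintro p hp ⟨W, _, h2, h3, _⟩
  have : p ∈ W ∩ A := ⟨interior_subset h2, hp⟩
  rw [h3] at this
  exact this

theorem jonesT_lift {G H X Y : Type} [TopologicalSpace G] [TopologicalSpace H]
    [TopologicalSpace X] [TopologicalSpace Y] [CompactSpace X] [T2Space X] [CompactSpace Y]
    [T2Space Y] [T2Space G] [T2Space H]
    (f : X → G) (g : Y → H) (hf : Continuous f) (hg : Continuous g) (hfo : IsOpenMap f)
    (hgo : IsOpenMap g) (hfs : Function.Surjective f) (hgs : Function.Surjective g)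
    (hX : ∀ W : Set X, IsClosed W → IsPreconnected W → (interior W).Nonempty → W = univ)
    (hY : ∀ W : Set Y, IsClosed W → IsPreconnected W → (interior W).Nonempty → W = univ)
    (hfc : ∀ (Z : Type) [TopologicalSpace Z] (W : Set (G × Z)), IsConnected W →
        Prod.fst '' W = univ → IsConnected {q : X × Z | (f q.1, q.2) ∈ W})
    (hgc : ∀ (Z : Type) [TopologicalSpace Z] (W : Set (H × Z)), IsConnected W →
        Prod.fst '' W = univ → IsConnected {q : Y × Z | (g q.1, q.2) ∈ W})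
    (A : Set (G × H)) :
    jonesT (Prod.map f g ⁻¹' A) = Prod.map f g ⁻¹' (spanT A) := by
  have hgc' : ∀ (Z : Type) [TopologicalSpace Z] (W : Set (Z × H)), IsConnected W →
        Prod.snd '' W = univ → IsConnected {q : Z × Y | (q.1, g q.2) ∈ W} := by
    intro Z _ W hW hW2
    have h1 : IsConnected (Prod.swap '' W) := hW.image _ continuous_swap.continuousOn
    have h2 : Prod.fst '' (Prod.swap '' W) = univ := by
      rw [image_image]; exact hW2
    have h3 := (hgc Z _ h1 h2).image Prod.swap continuous_swap.continuousOn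
    convert h3 using 1
    ext ⟨z, y⟩
    constructor
    · intro h
      exact ⟨(y, z), ⟨(z, g y), h, rfl⟩, rfl⟩
    · rintro ⟨⟨y', z'⟩, ⟨⟨z'', h''⟩, hw, he⟩, he2⟩
      simp only [Prod.swap_prod_mk, Prod.mk.injEq] at he he2
      obtain ⟨rfl, rfl⟩ := he2
      obtain ⟨rfl, rfl⟩ := he
      exact hw
  have hcont : Continuous (Prod.map f g) := hf.prodMap hg
  have hopen : IsOpenMap (Prod.map f g) := hfo.prodMap hgo
  ext q
  unfold jonesT spanT
  simp only [mem_ofPred_eq, mem_preimage]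
  rw [not_iff_not]
  constructor
  · rintro ⟨W, ⟨hWc, hWk⟩, hq, hd⟩
    refine ⟨Prod.map f g '' W, ⟨hWc.image hcont, hWk.image _ hcont.continuousOn⟩, ?_, ?_, ?_, ?_⟩
    · exact hopen.image_interior_subset W ⟨q, hq, rfl⟩
    · rw [eq_empty_iff_forall_notMem]
      rintro _ ⟨⟨w, hw, rfl⟩, h2⟩
      have : w ∈ W ∩ Prod.map f g ⁻¹' A := ⟨hw, h2⟩
      rw [hd] at this
      exact this
    · have h1 : Prod.fst '' W = univ := by
        apply hX _ (hWc.image continuous_fst).isClosed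
          (hWk.image _ continuous_fst.continuousOn).isPreconnected
        exact ⟨q.1, isOpenMap_fst.image_interior_subset W ⟨q, hq, rfl⟩⟩
      rw [eq_univ_iff_forall]
      intro x
      obtain ⟨x', rfl⟩ := hfs x
      have : x' ∈ Prod.fst '' W := by rw [h1]; trivial
      obtain ⟨w, hw, rfl⟩ := this
      exact ⟨_, ⟨w, hw, rfl⟩, rfl⟩
    · have h1 : Prod.snd '' W = univ := by
        apply hY _ (hWc.image continuous_snd).isClosed
          (hWk.image _ continuous_snd.continuousOn).isPreconnected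
        exact ⟨q.2, isOpenMap_snd.image_interior_subset W ⟨q, hq, rfl⟩⟩
      rw [eq_univ_iff_forall]
      intro x
      obtain ⟨x', rfl⟩ := hgs x
      have : x' ∈ Prod.snd '' W := by rw [h1]; trivial
      obtain ⟨w, hw, rfl⟩ := this
      exact ⟨_, ⟨w, hw, rfl⟩, rfl⟩
  · rintro ⟨W, ⟨hWc, hWk⟩, hq, hd, h1, h2⟩
    refine ⟨Prod.map f g ⁻¹' W, ⟨(hWc.isClosed.preimage hcont).isCompact, ?_⟩, ?_, ?_⟩
    · have h3 := hfc H W hWk h1
      have h4 : Prod.snd '' {q : X × H | (f q.1, q.2) ∈ W} = univ := by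
        rw [eq_univ_iff_forall]
        intro y
        have : y ∈ Prod.snd '' W := by rw [h2]; trivial
        obtain ⟨⟨x, y'⟩, hw, rfl⟩ := this
        obtain ⟨x', rfl⟩ := hfs x
        exact ⟨(x', y'), hw, rfl⟩
      exact hgc' X _ h3 h4
    · exact preimage_interior_subset_interior_preimage hcont hq
    · rw [← preimage_inter, hd, preimage_empty]

/-- The closed set at the bottom level. -/
def AA {G : Type} (v : G) (B : Set G) : Set (G × unitInterval) :=
  {p | (p.1 ∉ B ∧ (p.2 : ℝ) = 1 / 2) ∨ (p.1 = v ∧ 1 / 2 ≤ (p.2 : ℝ))}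

lemma isClosed_AA {G : Type} [TopologicalSpace G] [T1Space G] (v : G) (B : Set G)
    (hB : IsOpen B) : IsClosed (AA v B) := by
  have hc : Continuous (fun p : G × unitInterval => (p.2 : ℝ)) := by fun_prop
  have h1 : IsClosed {p : G × unitInterval | p.1 ∉ B ∧ (p.2 : ℝ) = 1 / 2} :=
    (hB.isClosed_compl.preimage continuous_fst).inter (isClosed_eq hc continuous_const)
  have h2 : IsClosed {p : G × unitInterval | p.1 = v ∧ 1 / 2 ≤ (p.2 : ℝ)} :=
    (isClosed_singleton.preimage continuous_fst).inter (isClosed_le continuous_const hc)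
  exact h1.union h2

/-- a relatively clopen cylinder traps continua -/
lemma trap {G : Type} [TopologicalSpace G] (v : G) (B P D : Set G) (A : Set (G × unitInterval))
    (hB : IsOpen B) (hP : IsOpen P) (hPD : IsClosed (P ∪ D)) (hPB : Disjoint P B)
    (hAA : AA v B ⊆ A) (hD : ∀ x ∈ D, x ∉ P → ∀ t : unitInterval, 1 / 2 < (t : ℝ) → (x, t) ∈ A)
    (W : Set (G × unitInterval)) (hW : IsPreconnected W) (hWA : W ∩ A = ∅)
    (q : G × unitInterval) (hq : q ∈ W) (hq1 : q.1 ∈ P) (hq2 : 1 / 2 < (q.2 : ℝ)) :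
    Prod.snd '' W ≠ univ := by
  have hc : Continuous (fun p : G × unitInterval => (p.2 : ℝ)) := by fun_prop
  have hWA' : ∀ w ∈ W, w ∉ A := by
    intro w hw hA
    have : w ∈ W ∩ A := ⟨hw, hA⟩
    rw [hWA] at this
    exact this
  intro huniv
  have h0 : (0 : unitInterval) ∈ Prod.snd '' W := by rw [huniv]; trivial
  obtain ⟨w0, hw0, hw02⟩ := h0
  have hU : IsOpen (P ×ˢ {t : unitInterval | 1 / 2 < (t : ℝ)}) :=
    hP.prod (isOpen_lt continuous_const continuous_subtype_val)
  have hV : IsOpen ({p : G × unitInterval | (p.2 : ℝ) < 1 / 2} ∪ (Prod.fst ⁻¹' B) ∪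
      (Prod.fst ⁻¹' (P ∪ D)ᶜ)) :=
    ((isOpen_lt hc continuous_const).union (hB.preimage continuous_fst)).union
      (hPD.isOpen_compl.preimage continuous_fst)
  have hcov : W ⊆ (P ×ˢ {t : unitInterval | 1 / 2 < (t : ℝ)}) ∪
      ({p : G × unitInterval | (p.2 : ℝ) < 1 / 2} ∪ (Prod.fst ⁻¹' B) ∪
      (Prod.fst ⁻¹' (P ∪ D)ᶜ)) := by
    intro w hw
    by_cases h1 : (w.2 : ℝ) < 1 / 2
    · exact Or.inr (Or.inl (Or.inl h1))
    by_cases h2 : w.1 ∈ B
    · exact Or.inr (Or.inl (Or.inr h2))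
    have h3 : (w.2 : ℝ) ≠ 1 / 2 := fun h => hWA' w hw (hAA (Or.inl ⟨h2, h⟩))
    have h4 : 1 / 2 < (w.2 : ℝ) := lt_of_le_of_ne (not_lt.1 h1) (Ne.symm h3)
    by_cases h5 : w.1 ∈ P
    · exact Or.inl ⟨h5, h4⟩
    · refine Or.inr (Or.inr ?_)
      rintro (h6 | h6)
      · exact h5 h6
      · exact hWA' w hw (hD w.1 h6 h5 w.2 h4)
  have hne1 : (W ∩ (P ×ˢ {t : unitInterval | 1 / 2 < (t : ℝ)})).Nonempty := ⟨q, hq, hq1, hq2⟩
  have hne2 : (W ∩ ({p : G × unitInterval | (p.2 : ℝ) < 1 / 2} ∪ (Prod.fst ⁻¹' B) ∪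
      (Prod.fst ⁻¹' (P ∪ D)ᶜ))).Nonempty := by
    refine ⟨w0, hw0, Or.inl (Or.inl ?_)⟩
    show (w0.2 : ℝ) < 1 / 2
    rw [hw02]; norm_num
  obtain ⟨x, hx, ⟨hx1, hx2⟩, hx3⟩ := hW _ _ hU hV hcov hne1 hne2
  have hx2' : 1 / 2 < (x.2 : ℝ) := hx2
  rcases hx3 with (hx3 | hx3) | hx3
  · have hx3' : (x.2 : ℝ) < 1 / 2 := hx3
    linarith
  · exact disjoint_left.1 hPB hx1 hx3
  · exact hx3 (Or.inl hx1)

theorem spanT_not_idempotent {G : Type} [TopologicalSpace G] [T2Space G] [CompactSpace G]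
    [ConnectedSpace G] (v v2 a j : G) (B J C : Set G) (L : ℕ → Set G)
    (hB : IsOpen B) (haB : a ∈ B) (hL : ∀ n, IsOpen (L n)) (hLv : ∀ n, IsClosed (L n ∪ {v}))
    (hLB : ∀ n, Disjoint (L n) B) (hv2 : v2 ∈ closure (⋃ n, L n)) (hJ : IsOpen J)
    (hJc : IsClosed (J ∪ {v2})) (hJB : Disjoint J B) (hj : j ∈ J) (hC : IsCompact C)
    (hCc : IsConnected C) (hjC : j ∈ interior C) (haC : a ∈ C) (hvC : v ∉ C) :
    spanT (spanT (AA v B)) ≠ spanT (AA v B) := by
  have hc : Continuous (fun p : G × unitInterval => (p.2 : ℝ)) := by fun_prop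
  -- points over `v2` lie in the first iterate
  have hb : ∀ t : unitInterval, 1 / 2 < (t : ℝ) → (v2, t) ∈ spanT (AA v B) := by
    rintro t ht ⟨W, ⟨_, hW⟩, hin, hd, _, hs⟩
    have h1 : IsOpen ((fun x : G => (x, t)) ⁻¹' interior W) :=
      isOpen_interior.preimage (by fun_prop)
    obtain ⟨x, hx1, hx2⟩ := mem_closure_iff.1 hv2 _ h1 hin
    obtain ⟨n, hn⟩ := mem_iUnion.1 hx2
    exact trap v B (L n) {v} (AA v B) hB (hL n) (hLv n) (hLB n) Subset.rfl
      (fun y hy _ s hs => Or.inr ⟨hy, hs.le⟩) W hW.isPreconnected hd (x, t)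
      (interior_subset hx1) hn ht hs
  intro heq
  have hmem : ((j, 1) : G × unitInterval) ∈ spanT (spanT (AA v B)) := by
    rintro ⟨W, ⟨_, hW⟩, hin, hd, _, hs⟩
    exact trap v B J {v2} (spanT (AA v B)) hB hJ hJc hJB (subset_spanT _)
      (fun y hy _ s hs => by
        have : y = v2 := hy
        rw [this]; exact hb s hs) W hW.isPreconnected hd (j, 1)
      (interior_subset hin) hj (by norm_num) hs
  rw [heq] at hmem
  apply hmem
  refine ⟨(C ×ˢ {t : unitInterval | 3 / 4 ≤ (t : ℝ)}) ∪ (({a} ×ˢ univ) ∪ (univ ×ˢ {0})),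
    ⟨?_, ?_⟩, ?_, ?_, ?_, ?_⟩
  · refine (hC.prod ?_).union ((isCompact_singleton.prod isCompact_univ).union
      (isCompact_univ.prod isCompact_singleton))
    exact (isClosed_le continuous_const continuous_subtype_val).isCompact
  · have hIcc : {t : unitInterval | 3 / 4 ≤ (t : ℝ)} = Set.Icc (⟨3/4, by norm_num⟩) 1 := by
      ext t
      simp only [mem_ofPred_eq, mem_Icc]
      constructor
      · intro h
        exact ⟨h, t.2.2⟩
      · intro h
        exact h.1
    have h1 : IsConnected (C ×ˢ {t : unitInterval | 3 / 4 ≤ (t : ℝ)}) := by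
      refine hCc.prod ?_
      rw [hIcc]
      exact isConnected_Icc (by
        rw [Subtype.mk_le_mk]
        norm_num)
    have h2 : IsConnected (({a} : Set G) ×ˢ (univ : Set unitInterval)) :=
      isConnected_singleton.prod isConnected_univ
    have h3 : IsConnected ((univ : Set G) ×ˢ ({0} : Set unitInterval)) :=
      isConnected_univ.prod isConnected_singleton
    have h4 := h2.union (t := (univ : Set G) ×ˢ ({0} : Set unitInterval))
      ⟨(a, 0), by simp, by simp⟩ h3
    refine h1.union ⟨(a, 1), ⟨haC, ?_⟩, Or.inl ⟨rfl, trivial⟩⟩ h4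
    show (3 / 4 : ℝ) ≤ ((1 : unitInterval) : ℝ)
    norm_num
  · rw [mem_interior]
    refine ⟨interior C ×ˢ {t : unitInterval | 3 / 4 < (t : ℝ)}, ?_,
      isOpen_interior.prod (isOpen_lt continuous_const continuous_subtype_val), hjC, ?_⟩
    · rintro ⟨x, t⟩ ⟨hx, ht⟩
      have ht' : 3 / 4 < (t : ℝ) := ht
      exact Or.inl ⟨interior_subset hx, ht'.le⟩
    · show (3 / 4 : ℝ) < ((1 : unitInterval) : ℝ)
      norm_num
  · rw [eq_empty_iff_forall_notMem]
    rintro ⟨x, t⟩ ⟨hx, hA⟩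
    rcases hx with ⟨hx1, hx2⟩ | ⟨hx1, hx2⟩ | ⟨hx1, hx2⟩
    · have hx2' : 3 / 4 ≤ (t : ℝ) := hx2
      rcases hA with ⟨_, h2⟩ | ⟨h1, h2⟩
      · have : (t : ℝ) = 1 / 2 := h2
        linarith
      · have : x = v := h1
        rw [this] at hx1
        exact hvC hx1
    · have hx1' : x = a := hx1
      rcases hA with ⟨h1, _⟩ | ⟨h1, _⟩
      · apply h1
        show x ∈ B
        rw [hx1']; exact haB
      · have : x = v := h1
        rw [← hx1', this] at haC
        exact hvC haC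
    · have hx2' : t = 0 := hx2
      subst hx2'
      rcases hA with ⟨_, h2⟩ | ⟨_, h2⟩
      · have : ((0 : unitInterval) : ℝ) = 1 / 2 := h2
        norm_num at this
      · have : (1 / 2 : ℝ) ≤ ((0 : unitInterval) : ℝ) := h2
        norm_num at this
  · rw [eq_univ_iff_forall]
    intro x
    exact ⟨(x, 0), Or.inr (Or.inr ⟨trivial, rfl⟩), rfl⟩
  · rw [eq_univ_iff_forall]
    intro t
    exact ⟨(a, t), Or.inr (Or.inl ⟨rfl, trivial⟩), rfl⟩

/-! ### The planar continuum -/

/-- the slopes. -/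
def QQ : Set ℝ := insert 0 (range (fun n : ℕ => 1 / ((n : ℝ) + 1)))

lemma isCompact_QQ : IsCompact QQ :=
  (tendsto_one_div_add_atTop_nhds_zero_nat (𝕜 := ℝ)).isCompact_insert_range

/-- the fan. -/
def G1 : Set (ℝ × ℝ) := (fun p : ℝ × ℝ => (p.1 * p.2, 1 - p.1)) '' (Icc 0 1 ×ˢ QQ)

def G2 : Set (ℝ × ℝ) := {0} ×ˢ Icc (-1) 1

def G3 : Set (ℝ × ℝ) := Icc (-1) 0 ×ˢ {0}

/-- the planar continuum. -/
def GG : Set (ℝ × ℝ) := G1 ∪ (G2 ∪ G3)

lemma isCompact_GG : IsCompact GG := by
  refine IsCompact.union ?_ (IsCompact.union ?_ ?_)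
  · exact (isCompact_Icc.prod isCompact_QQ).image (by fun_prop)
  · exact isCompact_singleton.prod isCompact_Icc
  · exact isCompact_Icc.prod isCompact_singleton

lemma isConnected_G2 : IsConnected G2 := isConnected_singleton.prod (isConnected_Icc (by norm_num))

lemma isConnected_G3 : IsConnected G3 := (isConnected_Icc (by norm_num)).prod isConnected_singleton

lemma isConnected_G1 : IsConnected G1 := by
  have h : G1 = ⋃ q : QQ, (fun s : ℝ => ((s * q.1, 1 - s) : ℝ × ℝ)) '' Icc 0 1 := by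
    ext x
    constructor
    · rintro ⟨⟨s, q⟩, ⟨hs, hq⟩, rfl⟩
      exact mem_iUnion.2 ⟨⟨q, hq⟩, s, hs, rfl⟩
    · intro hx
      obtain ⟨⟨q, hq⟩, s, hs, rfl⟩ := mem_iUnion.1 hx
      exact ⟨(s, q), ⟨hs, hq⟩, rfl⟩
  refine ⟨⟨(0, 1), (0, 0), ⟨⟨le_rfl, by norm_num⟩, Or.inl rfl⟩, by simp⟩, ?_⟩
  rw [h]
  apply isPreconnected_iUnion
  · refine ⟨(0, 1), mem_iInter.2 (fun q => ⟨0, ⟨le_rfl, by norm_num⟩, by simp⟩)⟩
  · intro q
    exact (isPreconnected_Icc).image _ (by fun_prop)

lemma isConnected_GG : IsConnected GG := by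
  refine isConnected_G1.union ?_ (isConnected_G2.union ?_ isConnected_G3)
  · exact ⟨(0, 1), ⟨(0, 0), ⟨⟨le_rfl, by norm_num⟩, Or.inl rfl⟩, by simp⟩,
      Or.inl ⟨rfl, by norm_num, le_rfl⟩⟩
  · exact ⟨(0, 0), ⟨rfl, by norm_num, by norm_num⟩, ⟨by norm_num, le_rfl⟩, rfl⟩

lemma GG_neg_snd {p : ℝ × ℝ} (hp : p ∈ GG) (h : p.2 < 0) : p.1 = 0 := by
  rcases hp with ⟨⟨s, q⟩, ⟨hs, _⟩, rfl⟩ | ⟨hp, _⟩ | ⟨_, hp⟩
  · simp only at h
    have := hs.2
    simp only at this
    linarith
  · exact hp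
  · have : p.2 = 0 := hp
    linarith

lemma GG_neg_fst {p : ℝ × ℝ} (hp : p ∈ GG) (h : p.1 < 0) : p.2 = 0 := by
  rcases hp with ⟨⟨s, q⟩, ⟨hs, hq⟩, rfl⟩ | ⟨hp, _⟩ | ⟨_, hp⟩
  · exfalso
    simp only at h
    have h1 : 0 ≤ s := hs.1
    have h2 : 0 ≤ q := by
      rcases hq with rfl | ⟨n, rfl⟩
      · exact le_rfl
      · positivity
    have := mul_nonneg h1 h2
    linarith
  · have : p.1 = 0 := hp
    linarith
  · exact hp

lemma GG_pos_fst {p : ℝ × ℝ} (hp : p ∈ GG) (h : 0 < p.1) :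
    ∃ n : ℕ, ((n : ℝ) + 1) * p.1 = 1 - p.2 := by
  rcases hp with ⟨⟨s, q⟩, ⟨hs, hq⟩, rfl⟩ | ⟨hp, _⟩ | ⟨hp, _⟩
  · simp only at h ⊢
    rcases hq with hq | ⟨n, hq⟩
    · simp only at hq
      rw [hq, mul_zero] at h
      exact absurd h (lt_irrefl _)
    · refine ⟨n, ?_⟩
      simp only at hq
      rw [← hq]
      have : (n : ℝ) + 1 ≠ 0 := by positivity
      field_simp
      ring
  · have : p.1 = 0 := hp
    linarith
  · have := hp.2
    linarith

/-- the legs. -/
def LL (n : ℕ) : Set GG :=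
  {p | 0 < p.1.1 ∧ (n : ℝ) * p.1.1 < 1 - p.1.2 ∧ 1 - p.1.2 < ((n : ℝ) + 2) * p.1.1}

theorem exists_example : ∃ (G : Type) (_ : MetricSpace G) (v : G) (B : Set G),
    CompactSpace G ∧ ConnectedSpace G ∧ IsOpen B ∧ spanT (spanT (AA v B)) ≠ spanT (AA v B) := by
  have hcomp : CompactSpace GG := isCompact_iff_compactSpace.1 isCompact_GG
  have hconn : ConnectedSpace GG := isConnected_iff_connectedSpace.1 isConnected_GG
  have hc1 : Continuous (fun p : GG => p.1.1) := by fun_prop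
  have hc2 : Continuous (fun p : GG => p.1.2) := by fun_prop
  have hv : ((0, 1) : ℝ × ℝ) ∈ GG := Or.inr (Or.inl ⟨rfl, by norm_num, le_rfl⟩)
  have hv2 : ((0, 0) : ℝ × ℝ) ∈ GG := Or.inr (Or.inl ⟨rfl, by norm_num, by norm_num⟩)
  have ha : ((-1, 0) : ℝ × ℝ) ∈ GG := Or.inr (Or.inr ⟨⟨le_rfl, by norm_num⟩, rfl⟩)
  have hj : ((0, -1) : ℝ × ℝ) ∈ GG := Or.inr (Or.inl ⟨rfl, le_rfl, by norm_num⟩)
  have hl : ∀ n : ℕ, ((1 / ((n : ℝ) + 1), 0) : ℝ × ℝ) ∈ GG := by
    intro n
    exact Or.inl ⟨(1, 1 / ((n : ℝ) + 1)), ⟨⟨by norm_num, le_rfl⟩, Or.inr ⟨n, rfl⟩⟩, by simp⟩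
  have hBo : IsOpen {p : GG | p.1.1 < 0} := isOpen_lt hc1 continuous_const
  have hJo : IsOpen {p : GG | p.1.2 < 0} := isOpen_lt hc2 continuous_const
  refine ⟨GG, inferInstance, ⟨(0, 1), hv⟩, {p | p.1.1 < 0}, hcomp, hconn, hBo, ?_⟩
  refine spanT_not_idempotent ⟨(0, 1), hv⟩ ⟨(0, 0), hv2⟩ ⟨(-1, 0), ha⟩ ⟨(0, -1), hj⟩
    {p | p.1.1 < 0} {p | p.1.2 < 0} {p | p.1.1 ≤ 0 ∧ p.1.2 ≤ 0} LL hBo ?_ ?_ ?_ ?_ ?_ hJo ?_ ?_
    ?_ ?_ ?_ ?_ ?_ ?_
  · show (-1 : ℝ) < 0
    norm_num
  · intro n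
    exact (isOpen_lt continuous_const hc1).inter
      ((isOpen_lt (continuous_const.mul hc1) (continuous_const.sub hc2)).inter
        (isOpen_lt (continuous_const.sub hc2) (continuous_const.mul hc1)))
  · intro n
    have : LL n ∪ {⟨(0, 1), hv⟩} = {p : GG | 0 ≤ p.1.1 ∧ ((n : ℝ) + 1) * p.1.1 = 1 - p.1.2} := by
      ext p
      constructor
      · rintro (⟨h1, h2, h3⟩ | h)
        · refine ⟨h1.le, ?_⟩
          obtain ⟨m, hm⟩ := GG_pos_fst p.2 h1
          rw [← hm] at h2 h3
          have h4 : (n : ℝ) < (m : ℝ) + 1 := lt_of_mul_lt_mul_right h2 h1.le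
          have h5 : (m : ℝ) + 1 < (n : ℝ) + 2 := lt_of_mul_lt_mul_right h3 h1.le
          have h6 : n < m + 1 := by exact_mod_cast h4
          have h7 : m + 1 < n + 2 := by exact_mod_cast h5
          have : m = n := by omega
          subst this
          exact hm
        · have h' : p = ⟨(0, 1), hv⟩ := h
          rw [h']
          simp
      · rintro ⟨h1, h2⟩
        rcases h1.eq_or_lt with h3 | h3
        · right
          show p = ⟨(0, 1), hv⟩
          apply Subtype.ext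
          apply Prod.ext
          · exact h3.symm
          · show p.1.2 = 1
            rw [← h3, mul_zero] at h2
            linarith
        · left
          refine ⟨h3, ?_, ?_⟩
          · rw [← h2]; nlinarith
          · rw [← h2]; nlinarith
    rw [this]
    exact (isClosed_le continuous_const hc1).inter (isClosed_eq (by fun_prop) (by fun_prop))
  · intro n
    rw [disjoint_left]
    rintro p ⟨h1, _⟩ h2
    have h2' : p.1.1 < 0 := h2
    linarith
  · have hlim : Tendsto (fun n : ℕ => (⟨(1 / ((n : ℝ) + 1), 0), hl n⟩ : GG)) atTop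
        (𝓝 ⟨(0, 0), hv2⟩) := by
      rw [tendsto_subtype_rng]
      exact (tendsto_one_div_add_atTop_nhds_zero_nat (𝕜 := ℝ)).prodMk_nhds tendsto_const_nhds
    refine mem_closure_of_tendsto hlim (Eventually.of_forall (fun n => mem_iUnion.2 ⟨n, ?_⟩))
    have hn : (0 : ℝ) < (n : ℝ) + 1 := by positivity
    refine ⟨?_, ?_, ?_⟩
    · show (0 : ℝ) < 1 / ((n : ℝ) + 1)
      positivity
    · show (n : ℝ) * (1 / ((n : ℝ) + 1)) < 1 - 0
      rw [mul_one_div, div_lt_iff₀ hn]; linarith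
    · show (1 : ℝ) - 0 < ((n : ℝ) + 2) * (1 / ((n : ℝ) + 1))
      rw [mul_one_div, lt_div_iff₀ hn]; linarith
  · have : ({p : GG | p.1.2 < 0} ∪ {⟨(0, 0), hv2⟩} : Set GG) =
        {p : GG | p.1.1 = 0 ∧ p.1.2 ≤ 0} := by
      ext p
      constructor
      · rintro (h | h)
        · exact ⟨GG_neg_snd p.2 h, le_of_lt h⟩
        · have h' : p = ⟨(0, 0), hv2⟩ := h
          rw [h']
          exact ⟨rfl, le_rfl⟩
      · rintro ⟨h1, h2⟩
        rcases h2.lt_or_eq with h3 | h3
        · exact Or.inl h3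
        · right
          show p = ⟨(0, 0), hv2⟩
          exact Subtype.ext (Prod.ext h1 h3)
    rw [this]
    exact (isClosed_eq hc1 continuous_const).inter (isClosed_le hc2 continuous_const)
  · rw [disjoint_left]
    intro p h1 h2
    have h1' : p.1.2 < 0 := h1
    have h2' : p.1.1 < 0 := h2
    have := GG_neg_snd p.2 h1'
    linarith
  · show (-1 : ℝ) < 0
    norm_num
  · have : IsClosed {p : GG | p.1.1 ≤ 0 ∧ p.1.2 ≤ 0} :=
      (isClosed_le hc1 continuous_const).inter (isClosed_le hc2 continuous_const)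
    exact this.isCompact
  · have himg : Subtype.val '' {p : GG | p.1.1 ≤ 0 ∧ p.1.2 ≤ 0} =
        (({0} ×ˢ Icc (-1) 0) ∪ (Icc (-1) 0 ×ˢ {0}) : Set (ℝ × ℝ)) := by
      ext p
      constructor
      · rintro ⟨⟨p, hp⟩, ⟨h1, h2⟩, rfl⟩
        simp only at h1 h2 ⊢
        rcases h1.lt_or_eq with h3 | h3
        · right
          have h4 := GG_neg_fst hp h3
          refine ⟨⟨?_, h1⟩, h4⟩
          rcases hp with ⟨⟨s, q⟩, ⟨hs, hq⟩, rfl⟩ | ⟨hp, _⟩ | ⟨hp, _⟩
          · exfalso
            simp only at h3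
            have h5 : 0 ≤ s := hs.1
            have h6 : 0 ≤ q := by
              rcases hq with rfl | ⟨n, rfl⟩
              · exact le_rfl
              · positivity
            have := mul_nonneg h5 h6
            linarith
          · have : p.1 = 0 := hp
            linarith
          · exact hp.1
        · left
          refine ⟨h3, ?_, h2⟩
          rcases hp with ⟨⟨s, q⟩, ⟨hs, hq⟩, rfl⟩ | ⟨_, hp⟩ | ⟨_, hp⟩
          · have : s ≤ 1 := hs.2
            show (-1 : ℝ) ≤ 1 - s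
            linarith
          · exact hp.1
          · have : p.2 = 0 := hp
            rw [this]; norm_num
      · rintro (⟨h1, h2⟩ | ⟨h1, h2⟩)
        · have h1' : p.1 = 0 := h1
          refine ⟨⟨p, Or.inr (Or.inl ⟨h1, h2.1, h2.2.trans (by norm_num)⟩)⟩, ⟨?_, h2.2⟩, rfl⟩
          show p.1 ≤ 0
          rw [h1']
        · have h2' : p.2 = 0 := h2
          refine ⟨⟨p, Or.inr (Or.inr ⟨h1, h2⟩)⟩, ⟨h1.2, ?_⟩, rfl⟩
          show p.2 ≤ 0
          rw [h2']
    have hconn' : IsConnected (({0} ×ˢ Icc (-1) 0) ∪ (Icc (-1) 0 ×ˢ {0}) : Set (ℝ × ℝ)) := by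
      refine (isConnected_singleton.prod (isConnected_Icc (by norm_num))).union ?_
        ((isConnected_Icc (by norm_num)).prod isConnected_singleton)
      exact ⟨(0, 0), ⟨rfl, by norm_num, le_rfl⟩, ⟨by norm_num, le_rfl⟩, rfl⟩
    refine ⟨⟨⟨(0, 0), hv2⟩, le_rfl, le_rfl⟩, ?_⟩
    rw [← IsInducing.subtypeVal.isPreconnected_image, himg]
    exact hconn'.isPreconnected
  · rw [mem_interior]
    refine ⟨{p | p.1.2 < 0}, ?_, hJo, ?_⟩
    · intro p hp
      exact ⟨(GG_neg_snd p.2 hp).le, le_of_lt hp⟩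
    · show (-1 : ℝ) < 0
      norm_num
  · exact ⟨by norm_num, le_rfl⟩
  · rintro ⟨_, h⟩
    have : (1 : ℝ) ≤ 0 := h
    norm_num at this

lemma indecomposable_of_interior {X : Type} [TopologicalSpace X] [CompactSpace X] [T2Space X]
    (hX : ∀ W : Set X, IsClosed W → IsPreconnected W → (interior W).Nonempty → W = univ) :
    IsIndecomposable X := by
  rintro ⟨P, Q, ⟨hPc, hPk⟩, ⟨hQc, hQk⟩, hP, hQ, hPQ⟩
  apply hQ
  apply hX Q hQc.isClosed hQk.isPreconnected
  have h1 : Pᶜ.Nonempty := nonempty_compl.2 hP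
  obtain ⟨x, hx⟩ := h1
  refine ⟨x, mem_interior.2 ⟨Pᶜ, ?_, hPc.isClosed.isOpen_compl, hx⟩⟩
  intro y hy
  have : y ∈ P ∪ Q := by rw [hPQ]; trivial
  rcases this with h | h
  · exact absurd h hy
  · exact h

/-- There are indecomposable metric continua `X`, `Y` and a closed `A ⊆ X × Y` with
`T (T A) ≠ T A`. -/
theorem result : ∃ (X Y : Type) (_ : TopologicalSpace X) (_ : TopologicalSpace Y),
    IsMetricContinuum X ∧ IsIndecomposable X ∧ IsMetricContinuum Y ∧ IsIndecomposable Y ∧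
      ∃ A : Set (X × Y), IsClosed A ∧ jonesT (jonesT A) ≠ jonesT A := by
  obtain ⟨G, _, v, B, hGc, hGk, hB, hne⟩ := exists_example
  obtain ⟨X, _, f, hXc, hXm, hXk, hf, hfo, hfs, hfi, hfc⟩ := exists_cover G
  obtain ⟨Y, _, g, hYc, hYm, hYk, hg, hgo, hgs, hgi, hgc⟩ := exists_cover unitInterval
  have key := fun A => jonesT_lift f g hf hg hfo hgo hfs hgs hfi hgi hfc hgc A
  refine ⟨X, Y, _, _, ⟨hXc, hXm, hXk⟩, indecomposable_of_interior hfi, ⟨hYc, hYm, hYk⟩,
    indecomposable_of_interior hgi, Prod.map f g ⁻¹' (AA v B), ?_, ?_⟩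
  · exact (isClosed_AA v B hB).preimage (hf.prodMap hg)
  · rw [key, key]
    intro h
    apply hne
    exact (hfs.prodMap hgs).preimage_injective h

end Pool.Agent.Results.MP_fe892a_gt.NotIdempotent
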